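import Pool.Agent.Helper94.Curl.MollA
import Pool.Agent.Helper94.Curl.Sd

/-!
# The extremal blow-up

The facts of packets C-M2, C-WK, C-V2, C-BL1, C-BL2 enter as explicit hypotheses.
-/

open MeasureTheory Set Filter Topology Metric
open scoped ContDiff RealInnerProductSpace
open Pool.Agent.Helper38.Curl
open Pool.Agent.Helper94.Curl (lipschitz_sd sd_pos_iff sd_eq_zero_iff exists_frontier_dist mol_bl)

namespace Pool.Agent.Helper75.Curl

/-- Uniform bound of the blow-ups on balls. -/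
theorem bl_bound
    (Hsq : ∀ (u : E → E) (x z : E) {s : ℝ}, 0 < s → ∀ R : ℝ,
      sqOn (ball z R) (bl u x s) = (s ^ 3)⁻¹ * sqOn (ball (x + s • z) (s * R)) u)
    {Ω : Set E} {u : E → E} {CU : ℝ} (hG : Growth Ω u CU)
    {x : ℕ → E} (hx : ∀ n, x n ∈ frontier Ω) {s : ℕ → ℝ} (hs : ∀ n, 0 < s n)
    (hs0 : Tendsto s atTop (𝓝 0)) (R : ℝ) :
    ∃ C, ∀ᶠ n in atTop, sqOn (ball 0 R) (bl u (x n) (s n)) ≤ C := by
  rcases le_or_gt R 0 with hR | hR
  · refine ⟨0, Eventually.of_forall fun n => ?_⟩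
    rw [ball_eq_empty.2 hR]
    simp [sqOn]
  · refine ⟨CU * R ^ 3, ?_⟩
    have h1 : ∀ᶠ n in atTop, s n < R⁻¹ := hs0.eventually_lt_const (inv_pos.2 hR)
    filter_upwards [h1] with n hn
    have hsR : s n * R ≤ 1 := by
      have := mul_lt_mul_of_pos_right hn hR
      rw [inv_mul_cancel₀ hR.ne'] at this
      exact this.le
    rw [Hsq u (x n) 0 (hs n) R, smul_zero, add_zero]
    have h2 := hG (x n) (hx n) (s n * R) (mul_pos (hs n) hR) hsR
    have h3 : 0 < (s n ^ 3)⁻¹ := inv_pos.2 (pow_pos (hs n) 3)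
    calc (s n ^ 3)⁻¹ * sqOn (ball (x n) (s n * R)) u ≤ (s n ^ 3)⁻¹ * (CU * (s n * R) ^ 3) :=
          mul_le_mul_of_nonneg_left h2 h3.le
      _ = CU * R ^ 3 := by
          have : s n ≠ 0 := (hs n).ne'
          field_simp

/-- Convergence of the mollifications of a blow-up sequence. -/
theorem mol_blow
    (Hsq : ∀ (u : E → E) (x z : E) {s : ℝ}, 0 < s → ∀ R : ℝ,
      sqOn (ball z R) (bl u x s) = (s ^ 3)⁻¹ * sqOn (ball (x + s • z) (s * R)) u)
    (Hwk : ∀ {v : ℕ → E → E} {V : E → E}, WkTo v V → (∀ n, MemLp (v n) 2) →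
      (∀ R, MemLp V 2 (volume.restrict (ball 0 R))) →
      (∀ R, ∃ C, ∀ᶠ n in atTop, sqOn (ball 0 R) (v n) ≤ C) → ∀ {r : ℕ → ℝ} {r' : ℝ}, 0 < r' →
      Tendsto r atTop (𝓝 r') → ∀ {z : ℕ → E} {z' : E}, Tendsto z atTop (𝓝 z') →
      Tendsto (fun n => mol (r n) (v n) (z n)) atTop (𝓝 (mol r' V z')))
    (Hmem : ∀ {u : E → E}, MemLp u 2 → ∀ (x : E) {s : ℝ}, 0 < s → MemLp (bl u x s) 2)
    {Ω : Set E} {u : E → E} (hu : MemLp u 2) {r₀ c₀ CU : ℝ} (hG : Growth Ω u CU)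
    {x : ℕ → E} {s : ℕ → ℝ} {ν : E} {g : E → ℝ} {V : E → E} (h : Bl Ω u r₀ c₀ x s ν g V)
    {r : ℕ → ℝ} {r' : ℝ} (hr' : 0 < r') (hr : Tendsto r atTop (𝓝 r')) {z : ℕ → E} {z' : E}
    (hz : Tendsto z atTop (𝓝 z')) :
    Tendsto (fun n => mol (s n * r n) u (x n + s n • z n)) atTop (𝓝 (mol r' V z')) := by
  have h1 := Hwk h.wk (fun n => Hmem hu (x n) (h.spos n)) h.loc
    (bl_bound Hsq hG h.mem h.spos h.slim) hr' hr hz
  refine h1.congr' ?_
  filter_upwards [hr.eventually_const_lt hr'] with n hn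
  exact mol_bl u (x n) (z n) (h.spos n) hn

theorem extremal_of
    (Hmol : ∃ C : ℝ, 0 < C ∧ ∀ (r : ℝ) (x : E) (v : E → E), 0 < r →
      MemLp v 2 (volume.restrict (ball x r)) →
        ‖mol r v x‖ ^ 2 ≤ C * (r ^ 3)⁻¹ * sqOn (ball x r) v)
    (Hwk : ∀ {v : ℕ → E → E} {V : E → E}, WkTo v V → (∀ n, MemLp (v n) 2) →
      (∀ R, MemLp V 2 (volume.restrict (ball 0 R))) →
      (∀ R, ∃ C, ∀ᶠ n in atTop, sqOn (ball 0 R) (v n) ≤ C) → ∀ {r : ℕ → ℝ} {r' : ℝ}, 0 < r' →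
      Tendsto r atTop (𝓝 r') → ∀ {z : ℕ → E} {z' : E}, Tendsto z atTop (𝓝 z') →
      Tendsto (fun n => mol (r n) (v n) (z n)) atTop (𝓝 (mol r' V z')))
    (Hsq : ∀ (u : E → E) (x z : E) {s : ℝ}, 0 < s → ∀ R : ℝ,
      sqOn (ball z R) (bl u x s) = (s ^ 3)⁻¹ * sqOn (ball (x + s • z) (s * R)) u)
    (Hmem : ∀ {u : E → E}, MemLp u 2 → ∀ (x : E) {s : ℝ}, 0 < s → MemLp (bl u x s) 2)
    (Hex : ∀ {Ω : Set E} {u a : E → E} {Λ : ℝ}, Crit Ω u a Λ → ∀ {r₀ c₀ CU : ℝ}
      {F : Finset E}, Trans Ω r₀ c₀ F → Growth Ω u CU → ∀ {x : ℕ → E},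
      (∀ n, x n ∈ frontier Ω) → ∀ {s : ℕ → ℝ}, (∀ n, 0 < s n) → Tendsto s atTop (𝓝 0) →
      ∃ σ : ℕ → ℕ, StrictMono σ ∧ ∃ (ν : E) (g : E → ℝ) (V : E → E),
        Bl Ω u r₀ c₀ (x ∘ σ) (s ∘ σ) ν g V)
    (Hrep : ∀ {Ω : Set E} {u a : E → E} {Λ : ℝ}, Crit Ω u a Λ → ∀ {r₀ c₀ CU : ℝ},
      Growth Ω u CU → ∀ {x : ℕ → E} {s : ℕ → ℝ} {ν : E} {g : E → ℝ} {V : E → E},
      Bl Ω u r₀ c₀ x s ν g V → ∃ F, Rep g V F)
    {Ω : Set E} {u a : E → E} {Λ : ℝ} (hc : Crit Ω u a Λ) {r₀ c₀ CU : ℝ}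
    {F₀ : Finset E} (hT : Trans Ω r₀ c₀ F₀) (hG : Growth Ω u CU) :
    ∃ ℓ : ℝ, (∀ (x : ℕ → E) (s : ℕ → ℝ) (ν : E) (g : E → ℝ) (V F : E → E),
        Bl Ω u r₀ c₀ x s ν g V → Rep g V F → ∀ z, 0 < g z → ‖F z‖ ≤ ℓ) ∧
      ∃ (x : ℕ → E) (s : ℕ → ℝ) (ν : E) (g : E → ℝ) (V F : E → E),
        Bl Ω u r₀ c₀ x s ν g V ∧ Rep g V F ∧ ∃ z, 0 < g z ∧ ‖F z‖ = ℓ := by
  have hu : MemLp u 2 := hc.pot.memLp₂
  have hn : Ω.Nonempty := by
    rw [nonempty_iff_ne_empty]
    rintro rfl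
    have := hc.vol
    simp at this
  have hn' : Ωᶜ.Nonempty := by
    rw [nonempty_compl]
    rintro rfl
    exact NormedSpace.unbounded_univ ℝ E hc.bdd
  obtain ⟨p₀, hp₀, -⟩ := exists_frontier_dist hc.isOpen hn hn' 0
  set A : E → ℝ := fun x => ‖mol (sd Ω x / 2) u x‖ with hA
  obtain ⟨C, hC, hCm⟩ := Hmol
  -- the uniform bound
  have hbd : ∀ x ∈ Ω, sd Ω x ≤ 1 / 2 → A x ≤ √(C * CU * 64) := by
    intro x hx hx2
    have hd : 0 < sd Ω x := (sd_pos_iff hc.isOpen hn hn').2 hx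
    obtain ⟨y, hy, hxy⟩ := exists_frontier_dist hc.isOpen hn hn' x
    rw [abs_of_pos hd] at hxy
    set d := sd Ω x with hdd
    have h1 := hCm (d / 2) x u (by positivity) (hu.restrict _)
    have hsub : ball x (d / 2) ⊆ ball y (2 * d) := by
      intro w hw
      rw [mem_ball] at hw ⊢
      have h2 : dist x y = d := by rw [dist_eq_norm]; exact hxy
      have h3 := dist_triangle w x y
      linarith
    have h2 : sqOn (ball x (d / 2)) u ≤ sqOn (ball y (2 * d)) u := sqOn_mono hsub (hu.restrict _)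
    have h3 := hG y hy (2 * d) (by positivity) (by linarith)
    apply Real.le_sqrt_of_sq_le
    calc A x ^ 2 ≤ C * ((d / 2) ^ 3)⁻¹ * sqOn (ball x (d / 2)) u := h1
      _ ≤ C * ((d / 2) ^ 3)⁻¹ * (CU * (2 * d) ^ 3) := by
          apply mul_le_mul_of_nonneg_left (h2.trans h3)
          positivity
      _ = C * CU * 64 := by
          have : d ≠ 0 := hd.ne'
          field_simp
          ring
  -- the sets of values
  set T : ℕ → Set ℝ := fun n => {t | ∃ x ∈ Ω, sd Ω x ≤ 1 / (n + 2 : ℝ) ∧ A x = t} with hTd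
  have hδ : ∀ n : ℕ, (1 : ℝ) / (n + 2) ≤ 1 / 2 := by
    intro n
    apply one_div_le_one_div_of_le (by norm_num)
    have : (0 : ℝ) ≤ n := Nat.cast_nonneg n
    linarith
  have hTb : ∀ n, BddAbove (T n) := by
    intro n
    refine ⟨√(C * CU * 64), ?_⟩
    rintro t ⟨x, hx, hx2, rfl⟩
    exact hbd x hx (hx2.trans (hδ n))
  have hTne : ∀ n, (T n).Nonempty := by
    intro n
    have hpos : (0 : ℝ) < 1 / (n + 2) := by positivity
    have h1 : p₀ ∈ closure Ω := frontier_subset_closure hp₀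
    obtain ⟨x, hx, hxp⟩ := Metric.mem_closure_iff.1 h1 _ hpos
    refine ⟨A x, x, hx, ?_, rfl⟩
    have h2 := lipschitz_sd Ω hn hn' x p₀
    rw [(sd_eq_zero_iff hc.isOpen hn hn').2 hp₀, sub_zero] at h2
    rw [dist_comm, dist_eq_norm] at hxp
    exact ((le_abs_self _).trans h2).trans hxp.le
  set S : ℕ → ℝ := fun n => sSup (T n) with hS
  have hAS : ∀ n : ℕ, ∀ x ∈ Ω, sd Ω x ≤ 1 / (n + 2 : ℝ) → A x ≤ S n := by
    intro n x hx hx2
    exact le_csSup (hTb n) ⟨x, hx, hx2, rfl⟩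
  have hanti : Antitone S := by
    intro m n hmn
    apply csSup_le_csSup (hTb m) (hTne n)
    rintro t ⟨x, hx, hx2, rfl⟩
    refine ⟨x, hx, hx2.trans ?_, rfl⟩
    apply one_div_le_one_div_of_le (by positivity)
    have : (m : ℝ) ≤ n := by exact_mod_cast hmn
    linarith
  have hS0 : ∀ n, 0 ≤ S n := by
    intro n
    obtain ⟨t, ht⟩ := hTne n
    have h1 := le_csSup (hTb n) ht
    obtain ⟨x, hx, hx2, rfl⟩ := ht
    exact (norm_nonneg _).trans h1
  have hSb : BddBelow (range S) := ⟨0, by rintro _ ⟨n, rfl⟩; exact hS0 n⟩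
  have hSlim : Tendsto S atTop (𝓝 (⨅ n, S n)) := tendsto_atTop_ciInf hanti hSb
  refine ⟨⨅ n, S n, ?_, ?_⟩
  · -- upper bound
    intro x s ν g V F h hF z hz
    have hsne : ∀ n, s n ≠ 0 := fun n => (h.spos n).ne'
    have h1 : Tendsto (fun n => sd Ω (x n + s n • z) / s n) atTop (𝓝 (g z)) :=
      (h.conv ‖z‖).tendsto_at (by simp)
    have h2 : Tendsto (fun n => sd Ω (x n + s n • z)) atTop (𝓝 0) := by
      have h3 := h.slim.mul h1
      rw [zero_mul] at h3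
      refine h3.congr fun n => ?_
      rw [mul_div_cancel₀ _ (hsne n)]
    have h4 : Tendsto (fun n => mol (s n * (sd Ω (x n + s n • z) / s n / 2)) u (x n + s n • z))
        atTop (𝓝 (mol (g z / 2) V z)) :=
      mol_blow Hsq Hwk Hmem hu hG h (by positivity) (h1.div_const 2) tendsto_const_nhds
    have h5 : F z = mol (g z / 2) V z := by
      apply hF.mean z (g z / 2) (by positivity)
      intro w hw
      rw [mem_closedBall] at hw
      have h6 := h.lip.dist_le_mul w z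
      rw [Real.dist_eq, NNReal.coe_one, one_mul] at h6
      have h7 := (abs_le.1 h6).1
      show 0 < g w
      linarith
    rw [h5]
    apply le_ciInf
    intro N
    have hpos : (0 : ℝ) < 1 / (N + 2) := by positivity
    refine le_of_tendsto h4.norm ?_
    filter_upwards [h2.eventually_lt_const hpos, h1.eventually_const_lt hz] with n hn1 hn2
    have hn3 : 0 < sd Ω (x n + s n • z) := by
      have := mul_pos (h.spos n) hn2
      rwa [mul_div_cancel₀ _ (hsne n)] at this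
    have h8 := hAS N (x n + s n • z) ((sd_pos_iff hc.isOpen hn hn').1 hn3) hn1.le
    have h9 : s n * (sd Ω (x n + s n • z) / s n / 2) = sd Ω (x n + s n • z) / 2 := by
      have := hsne n
      field_simp
    rw [h9]
    exact h8
  · -- attained
    have hex : ∀ n : ℕ, ∃ p ∈ Ω, sd Ω p ≤ 1 / (n + 2 : ℝ) ∧ S n - 1 / (n + 1 : ℝ) < A p := by
      intro n
      have hpos : (0 : ℝ) < 1 / (n + 1) := by positivity
      obtain ⟨t, ⟨p, hp, hp2, rfl⟩, ht⟩ := exists_lt_of_lt_csSup (hTne n)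
        (show S n - 1 / (n + 1 : ℝ) < sSup (T n) by
          show S n - 1 / (n + 1 : ℝ) < S n
          linarith)
      exact ⟨p, hp, hp2, ht⟩
    choose p hp hp2 hp3 using hex
    have hAlim : Tendsto (fun n => A (p n)) atTop (𝓝 (⨅ n, S n)) := by
      refine tendsto_of_tendsto_of_tendsto_of_le_of_le ?_ hSlim (fun n => (hp3 n).le)
        (fun n => hAS n (p n) (hp n) (hp2 n))
      have h1 : Tendsto (fun n : ℕ => (1 : ℝ) / (n + 1)) atTop (𝓝 0) :=
        tendsto_one_div_add_atTop_nhds_zero_nat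
      simpa using hSlim.sub h1
    have hd : ∀ n, 0 < sd Ω (p n) := fun n => (sd_pos_iff hc.isOpen hn hn').2 (hp n)
    have hex2 : ∀ n, ∃ y ∈ frontier Ω, ‖p n - y‖ = |sd Ω (p n)| := fun n =>
      exists_frontier_dist hc.isOpen hn hn' (p n)
    choose x hx hxp using hex2
    set s : ℕ → ℝ := fun n => sd Ω (p n) with hsd
    have hs0 : Tendsto s atTop (𝓝 0) := by
      have h1 : Tendsto (fun n : ℕ => (1 : ℝ) / (n + 2)) atTop (𝓝 0) := by
        have h2 := (tendsto_one_div_add_atTop_nhds_zero_nat (𝕜 := ℝ)).comp (tendsto_add_atTop_nat 1)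
        refine h2.congr fun n => ?_
        simp only [Function.comp_apply]
        push_cast
        ring
      exact squeeze_zero (fun n => (hd n).le) hp2 h1
    set z : ℕ → E := fun n => (s n)⁻¹ • (p n - x n) with hz
    have hzn : ∀ n, ‖z n‖ = 1 := by
      intro n
      rw [hz]
      simp only
      rw [norm_smul, hxp n, abs_of_pos (hd n), Real.norm_eq_abs, abs_of_pos (inv_pos.2 (hd n))]
      exact inv_mul_cancel₀ (hd n).ne'
    have hpz : ∀ n, x n + s n • z n = p n := by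
      intro n
      rw [hz]
      simp only
      rw [smul_smul, mul_inv_cancel₀ (hd n).ne', one_smul]
      abel
    obtain ⟨z', hz', τ, hτ, hτz⟩ := (isCompact_closedBall (0 : E) 1).tendsto_subseq
      (x := z) (fun n => by simp [hzn n])
    obtain ⟨σ, hσ, ν, g, V, hBl⟩ := Hex hc hT hG (x := x ∘ τ) (fun n => hx (τ n))
      (s := s ∘ τ) (fun n => hd (τ n)) (hs0.comp hτ.tendsto_atTop)
    obtain ⟨F, hF⟩ := Hrep hc hG hBl
    have hzσ : Tendsto (fun n => z (τ (σ n))) atTop (𝓝 z') := hτz.comp hσ.tendsto_atTop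
    have hgz : g z' = 1 := by
      have h1 : Tendsto (fun n => g (z (τ (σ n)))) atTop (𝓝 (g z')) :=
        (hBl.lip.continuous.tendsto z').comp hzσ
      have h2 := hBl.conv 1
      have h3 : Tendsto (fun n => g (z (τ (σ n)))) atTop (𝓝 1) := by
        rw [Metric.tendsto_atTop]
        intro ε hε
        have h4 := Metric.tendstoUniformlyOn_iff.1 h2 ε hε
        obtain ⟨N, hN⟩ := eventually_atTop.1 h4
        refine ⟨N, fun n hn => ?_⟩
        have h5 := hN n hn (z (τ (σ n))) (by simp [hzn])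
        simp only [Function.comp_apply] at h5
        rw [hpz] at h5
        have h6 : sd Ω (p (τ (σ n))) / s (τ (σ n)) = 1 := div_self (hd _).ne'
        rw [h6] at h5
        exact h5
      exact tendsto_nhds_unique h1 h3
    refine ⟨_, _, ν, g, V, F, hBl, hF, z', by rw [hgz]; exact one_pos, ?_⟩
    have h1 : F z' = mol (1 / 2) V z' := by
      apply hF.mean z' (1 / 2) (by norm_num)
      intro w hw
      rw [mem_closedBall] at hw
      have h6 := hBl.lip.dist_le_mul w z'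
      rw [Real.dist_eq, NNReal.coe_one, one_mul, hgz] at h6
      have h7 := (abs_le.1 h6).1
      show 0 < g w
      linarith
    have h2 := mol_blow Hsq Hwk Hmem hu hG hBl (r := fun _ => 1 / 2) (r' := 1 / 2) (by norm_num)
      tendsto_const_nhds hzσ
    have h3 := h2.norm
    have h4 : Tendsto (fun n => A (p (τ (σ n)))) atTop (𝓝 (⨅ n, S n)) :=
      hAlim.comp (hτ.tendsto_atTop.comp hσ.tendsto_atTop)
    rw [h1]
    refine tendsto_nhds_unique h3 (h4.congr fun n => ?_)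
    simp only [Function.comp_apply]
    rw [hpz]
    show ‖mol (s (τ (σ n)) / 2) u _‖ = _
    rw [show s (τ (σ n)) * (1 / 2) = s (τ (σ n)) / 2 by ring]

end Pool.Agent.Helper75.Curl
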